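import Pool.Agent.H7.HD.Tools2
import Pool.Agent.H7.HD.Targets2

/-!
# MP_e37c09_lc, module YL: no splitting at ordinals of large cofinality
-/

open Ordinal Cardinal Order Set
open scoped ZFSet
universe u

namespace Pool.Agent.H78.HD.YL

open _root_.HD

/-- functionality of a relation is locally definable -/
theorem loc_fn : Loc.{u} (fun v => ∀ b ∈ v 1, ∀ i ∈ v 2, ∀ i' ∈ v 2,
    ZFSet.pair b i ∈ v 0 → ZFSet.pair b i' ∈ v 0 → i = i') := by
  refine Loc.allMem (R := fun b v => ∀ i ∈ v 2, ∀ i' ∈ v 2,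
    ZFSet.pair b i ∈ v 0 → ZFSet.pair b i' ∈ v 0 → i = i') 1 ?_
  refine Loc.allMem (R := fun i v => ∀ i' ∈ v 3,
    ZFSet.pair (v 0) i ∈ v 1 → ZFSet.pair (v 0) i' ∈ v 1 → i = i') 3 ?_
  refine Loc.allMem (R := fun i' v =>
    ZFSet.pair (v 1) (v 0) ∈ v 2 → ZFSet.pair (v 1) i' ∈ v 2 → v 0 = i') 4 ?_
  exact (loc_pmem 2 1 3).imp ((loc_pmem 2 0 3).imp (Loc.eq 1 0))

/-- positivity of all the fibres is locally definable -/
theorem loc_pos (hLB : T_LB.{u}) : Loc.{u} (fun v => ∀ i ∈ v 2, (v 3).IsOrdinal ∧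
    (v 1).IsOrdinal ∧ Pos (v 3).rank (v 1).rank {b | ZFSet.pair b.toZFSet i ∈ v 0}) := by
  refine Loc.allMem (R := fun i v => (v 3).IsOrdinal ∧
    (v 1).IsOrdinal ∧ Pos (v 3).rank (v 1).rank {b | ZFSet.pair b.toZFSet i ∈ v 0}) 2 ?_
  exact (Loc.ren hLB (fun n => if n = 0 then 4 else if n = 1 then 2 else if n = 2 then 1
    else 0)).congr fun v => by simp

theorem X (hXA : T_XA.{u}) (hXB : T_XB.{u}) (hXC : T_XC.{u}) (hLA : T_LA.{u}) (hYJ : T_YJ.{u})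
    (hXK : T_XK.{u}) (hLB : T_LB.{u}) : T_YL.{u} := by
  intro δ hext hA M hM hMδ κ hδκ s hs hfun hpos
  obtain ⟨D, hD, hDr, -, hD0⟩ : ∃ D : Cardinal.{u}, δ = D.ord ∧ D.IsRegular ∧ D.IsStrongLimit ∧
      ℵ₀ < D := by
    obtain ⟨η, -, θ, j, h⟩ := hXA δ hext 0
    exact hXB δ η θ j h
  have hω : ω < δ := by
    rw [hD, ← Cardinal.ord_aleph0]
    exact Cardinal.ord_lt_ord.2 hD0
  obtain ⟨C, α, hC0, hCr, hδC, hCα, hαC, hreg⟩ := hXK δ hω hA
  have hOD0 : OD (rs κ δ s) := od_rs hs κ δ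
  obtain ⟨β, hβ⟩ := hXC _ hOD0
  obtain ⟨η, hη, θ, j, h⟩ := hXA δ hext (max (max β κ) (max (succ C).ord α))
  have hβη : β < η := lt_of_le_of_lt ((le_max_left _ _).trans (le_max_left _ _)) hη
  have hKη : κ < η := lt_of_le_of_lt ((le_max_right _ _).trans (le_max_left _ _)) hη
  have hαη : α < η := lt_of_le_of_lt ((le_max_right _ _).trans (le_max_right _ _)) hη
  obtain ⟨hfη, hODF⟩ := hβ δ η θ j h hβη
  have hδη : δ < η := h.dlt
  have hMη : M.ord < η := hMδ.trans hδη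
  have hcκ : κ.cof.ord ≤ κ := (Cardinal.ord_le_ord.2 (Ordinal.cof_le_card κ)).trans
    (Cardinal.ord_le.2 le_rfl)
  have hcη : κ.cof.ord < η := hcκ.trans_lt hKη
  have hcf : (Jo j κ).cof.ord = Jo j κ.cof.ord := by
    have h1 := (h.trl hLA [κ.cof.ord.toZFSet, κ.toZFSet] (by
      simp only [List.mem_cons, List.not_mem_nil, or_false, forall_eq_or_imp, forall_eq]
      exact ⟨Gd.ord.2 hcη, Gd.ord.2 hKη⟩)).1 (by
        show κ.cof.ord.toZFSet.IsOrdinal ∧ κ.toZFSet.IsOrdinal ∧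
          Cf κ.cof.ord.toZFSet.rank κ.toZFSet.rank
        refine ⟨ZFSet.isOrdinal_toZFSet _, ZFSet.isOrdinal_toZFSet _, ?_⟩
        rw [rank_toZFSet, rank_toZFSet]
        rfl)
    have h2 : (j κ.cof.ord.toZFSet).IsOrdinal ∧ (j κ.toZFSet).IsOrdinal ∧
          Cf (j κ.cof.ord.toZFSet).rank (j κ.toZFSet).rank := h1
    rw [h.ord hcη, h.ord hKη, rank_toZFSet, rank_toZFSet] at h2
    exact h2.2.2
  have hJc : δ ≤ (Jo j κ).cof.ord := by
    rw [hcf]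
    exact hδκ.trans (h.le_Jo hcη)
  -- the image of the sequence is contained in a product
  have hsub : j (rs κ δ s) ⊆ ZFSet.prod (Jo j κ).toZFSet (Jo j δ).toZFSet := by
    have h1 : rs κ δ s ⊆ ZFSet.prod κ.toZFSet δ.toZFSet := fun p hp =>
      (ZFSet.mem_sep.1 hp).1
    have h2 : ZFSet.prod κ.toZFSet δ.toZFSet ∈ V_ η :=
      h.gd.prod (Gd.ord.2 hKη) (Gd.ord.2 hδη)
    have h3 := (h.sub hfη h2).1 h1
    rw [h.prod (Gd.ord.2 hKη) (Gd.ord.2 hδη), h.ord hKη, h.ord hδη] at h3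
    exact h3
  -- it is functional
  have hfnF : ∀ b i i', ZFSet.pair b i ∈ j (rs κ δ s) →
      ZFSet.pair b i' ∈ j (rs κ δ s) → i = i' := by
    have h1 := (h.trl loc_fn [rs κ δ s, κ.toZFSet, δ.toZFSet] (by
      simp only [List.mem_cons, List.not_mem_nil, or_false, forall_eq_or_imp, forall_eq]
      exact ⟨hfη, Gd.ord.2 hKη, Gd.ord.2 hδη⟩)).1 (by
        show ∀ b ∈ κ.toZFSet, ∀ i ∈ δ.toZFSet, ∀ i' ∈ δ.toZFSet,
          ZFSet.pair b i ∈ rs κ δ s → ZFSet.pair b i' ∈ rs κ δ s → i = i'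
        intro b hb i hi i' hi' h1 h2
        obtain ⟨b, -, rfl⟩ := mem_toZFSet_iff.1 hb
        obtain ⟨i, -, rfl⟩ := mem_toZFSet_iff.1 hi
        obtain ⟨i', -, rfl⟩ := mem_toZFSet_iff.1 hi'
        rw [pair_mem_rs] at h1 h2
        rw [hfun b i i' h1.2.2 h2.2.2])
    have h2 : ∀ b ∈ j κ.toZFSet, ∀ i ∈ j δ.toZFSet, ∀ i' ∈ j δ.toZFSet,
        ZFSet.pair b i ∈ j (rs κ δ s) → ZFSet.pair b i' ∈ j (rs κ δ s) → i = i' := h1
    rw [h.ord hKη, h.ord hδη] at h2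
    intro b i i' hbi hbi'
    obtain ⟨hb, hi⟩ := ZFSet.pair_mem_prod.1 (hsub hbi)
    obtain ⟨-, hi'⟩ := ZFSet.pair_mem_prod.1 (hsub hbi')
    exact h2 b hb i hi i' hi' hbi hbi'
  -- all its fibres are positive
  have hposF : ∀ i < Jo j δ, Pos M.ord (Jo j κ) (fib (j (rs κ δ s)) i) := by
    have h1 := (h.trl (loc_pos hLB) [rs κ δ s, κ.toZFSet, δ.toZFSet, M.ord.toZFSet] (by
      simp only [List.mem_cons, List.not_mem_nil, or_false, forall_eq_or_imp, forall_eq]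
      exact ⟨hfη, Gd.ord.2 hKη, Gd.ord.2 hδη, Gd.ord.2 hMη⟩)).1 (by
        show ∀ i ∈ δ.toZFSet, M.ord.toZFSet.IsOrdinal ∧ κ.toZFSet.IsOrdinal ∧
          Pos M.ord.toZFSet.rank κ.toZFSet.rank
            {b | ZFSet.pair b.toZFSet i ∈ rs κ δ s}
        intro i hi
        obtain ⟨i, hi2, rfl⟩ := mem_toZFSet_iff.1 hi
        refine ⟨ZFSet.isOrdinal_toZFSet _, ZFSet.isOrdinal_toZFSet _, ?_⟩
        rw [rank_toZFSet, rank_toZFSet]
        refine (hpos i hi2).mono fun b hb hsb _ => ?_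
        exact pair_mem_rs.2 ⟨hb, hi2, hsb⟩)
    have h2 : ∀ i ∈ j δ.toZFSet, (j M.ord.toZFSet).IsOrdinal ∧ (j κ.toZFSet).IsOrdinal ∧
          Pos (j M.ord.toZFSet).rank (j κ.toZFSet).rank
            {b | ZFSet.pair b.toZFSet i ∈ j (rs κ δ s)} := h1
    rw [h.fix _ hMδ, h.ord hKη, h.ord hδη, rank_toZFSet, rank_toZFSet] at h2
    intro i hi
    exact (h2 _ (toZFSet_mem_toZFSet_iff.2 hi)).2.2
  -- the second embedding
  obtain ⟨β', hβ'⟩ := hXC _ hODF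
  obtain ⟨η', hη', θ', j', h'⟩ := hXA δ hext (max β' (max (Jo j κ) (Jo j δ)))
  have hβη' : β' < η' := lt_of_le_of_lt (le_max_left _ _) hη'
  have hKη' : (Jo j κ) < η' := lt_of_le_of_lt ((le_max_left _ _).trans (le_max_right _ _)) hη'
  have hJη' : Jo j δ < η' := lt_of_le_of_lt ((le_max_right _ _).trans (le_max_right _ _)) hη'
  obtain ⟨hFη', hODF'⟩ := hβ' δ η' θ' j' h' hβη'
  have hsol : Sol2 δ η' θ' j' M (Jo j κ) (Jo j δ) (j (rs κ δ s)) := by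
    refine ⟨h', ?_, hω, hM, hMδ, hJc, hKη', hJη', hFη', hODF, hODF', hfnF,
      hposF⟩
    rw [hD, hDr.cof_ord]
  have hle := hYJ δ η' θ' j' M (Jo j κ) (Jo j δ) _ hsol α hreg (hδC.trans_le hCα)
    (hαη.trans h.Jo_crit).le
  have hcard : α.card = C := by
    apply le_antisymm
    · rw [← Order.lt_succ_iff]
      exact Cardinal.lt_ord.1 hαC
    · exact Cardinal.ord_le.1 hCα
  rw [hcard] at hle
  have hcof : α.cof = C := le_antisymm ((Ordinal.cof_le_card α).trans hcard.le) hle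
  apply hCr
  refine ⟨hC0, ?_⟩
  rw [← hcof, Ordinal.cof_ord_cof]

end Pool.Agent.H78.HD.YL
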