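import Pool.Agent.H7.HD.Tools2

set_option autoImplicit false

open Ordinal Cardinal Order Set
open scoped ZFSet

universe u

namespace Pool.Agent.H78.HD.HJ

open _root_.HD

/-- positivity with a constant first argument -/
theorem posM (hDA : T_DA.{u}) (μ : Ordinal.{u}) (j : ℕ)
    (X : Ordinal.{u} → (ℕ → Ordinal.{u}) → Prop)
    (hX : DO fun w => X (w 0) (fun n => w (n + 1))) :
    DO fun w => Pos μ (w j) {a | X a w} := by
  have h1 : DO.{u} fun w => X (w 0) (fun n => w (n + 2)) :=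
    (hX.ren (fun n => if n = 0 then 0 else n + 1)).congr fun w => by simp
  have h2 := hDA 0 (j + 1) (fun a w => X a (fun n => w (n + 1))) h1
  exact DO.sub (R := fun x w => Pos x (w j) {a | X a w}) μ h2

theorem memE {en : Ordinal.{u} → ZFSet.{u}}
    (h : DO.{u} fun w => w 0 ∈ E en (w 1)) (c : Ordinal.{u}) (i : ℕ) :
    DO.{u} fun w => w i ∈ E en c :=
  DO.sub (R := fun x w => w i ∈ E en x) c
    (DO.s2 (X := fun a b => a ∈ E en b) h (i + 1) 0)

theorem X (hHG : T_HG.{u}) (hHH : T_HH.{u}) (hHD : T_HD.{u}) (hEA : T_EA.{u}) (hDA : T_DA.{u})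
    (hVA : T_VA.{u}) (hVF : T_VF.{u}) (hVB : T_VB.{u}) : T_HJ.{u} := by
  intro en M N K c d h
  obtain ⟨hE1, hE2, -, -⟩ := hEA en h.hen
  have hM0 : ℵ₀ ≤ M := h.mreg.aleph0_le
  have hK0 : ℵ₀ < K := hM0.trans_lt (h.mn.trans h.nk)
  have hcof : ℵ₀ < K.ord.cof := by rw [h.kreg.cof_ord]; exact hK0
  have hlim : IsSuccLimit K.ord := isSuccLimit_ord hK0.le
  obtain ⟨R, hRdef⟩ : ∃ R : Ordinal.{u} → Ordinal.{u} → Prop, ∀ α e, R α e ↔
      ((∀ a < α, ¬ Pos M.ord α (E en c \ E2 en e a)) ∧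
        Pos M.ord α {b | b ∈ E en c ∧ ∃ a < b, b ∉ E2 en e a}) := ⟨_, fun _ _ => Iff.rfl⟩
  have hR : DR R := by
    refine DO.congr (A := fun w : ℕ → Ordinal.{u} =>
      (∀ a < w 0, ¬ Pos M.ord (w 0) (E en c \ E2 en (w 1) a)) ∧
        Pos M.ord (w 0) {b | b ∈ E en c ∧ ∃ a < b, b ∉ E2 en (w 1) a}) ?_ fun w => hRdef _ _
    refine DO.and ?_ ?_
    · refine DO.allLt (R := fun a w => ¬ Pos M.ord (w 0) (E en c \ E2 en (w 1) a)) 0 ?_
      refine DO.not ?_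
      refine posM hDA M.ord 1 (fun b w => b ∈ E en c ∧ b ∉ E2 en (w 2) (w 0)) ?_
      exact (memE hE1 c 0).and
        (DO.s3 (X := fun b a e => b ∈ E2 en e a) hE2 0 1 3).not
    · refine posM hDA M.ord 0 (fun b w => b ∈ E en c ∧ ∃ a < b, b ∉ E2 en (w 1) a) ?_
      refine (memE hE1 c 0).and ?_
      refine DO.exLt (R := fun a w => w 0 ∉ E2 en (w 2) a) 0 ?_
      exact (DO.s3 (X := fun b a e => b ∈ E2 en e a) hE2 1 0 3).not
  intro hpos
  have hpos' : Pos N.ord K.ord {α | α ∈ E en d ∧ ∃ e, R α e} := by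
    refine hpos.mono fun α _ hα _ => ?_
    obtain ⟨h1, e, h2⟩ := hα
    exact ⟨h1, e, (hRdef α e).2 h2⟩
  obtain ⟨e', he'⟩ := hHG en N.ord K d h.hen h.kreg hK0 h.ad R hR
  have hZ' := pos_diff hVA hcof hpos' he'
  -- consequences for the elements of the set
  have key : ∀ α, α ∈ {α | α ∈ E en d ∧ ∃ e, R α e} \ {α | α ∈ E en d ∧ (∃ e, R α e) ∧
      ¬ ∃ e, R α e ∧ ∀ a < α, ∀ b < α, (b ∈ E2 en e a ↔ b ∈ E2 en e' a)} →
      α ∈ E en d ∧ (∀ a < α, ¬ Pos M.ord α (E en c \ E2 en e' a)) ∧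
        Pos M.ord α {b | b ∈ E en c ∧ ∃ a < b, b ∉ E2 en e' a} := by
    rintro α ⟨⟨h1, h2⟩, h3⟩
    have h4 : ∃ e, R α e ∧ ∀ a < α, ∀ b < α, (b ∈ E2 en e a ↔ b ∈ E2 en e' a) := by
      by_contra hcon
      exact h3 ⟨h1, h2, hcon⟩
    obtain ⟨e, hRe, hag⟩ := h4
    obtain ⟨g1, g2⟩ := (hRdef α e).1 hRe
    refine ⟨h1, fun a ha => ?_, ?_⟩
    · intro hp
      refine g1 a ha ((Pos.congr fun b hb => ?_).1 hp)
      constructor
      · rintro ⟨p1, p2⟩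
        exact ⟨p1, fun q => p2 ((hag a ha b hb).1 q)⟩
      · rintro ⟨p1, p2⟩
        exact ⟨p1, fun q => p2 ((hag a ha b hb).2 q)⟩
    · refine (Pos.congr fun b hb => ?_).1 g2
      constructor
      · rintro ⟨p1, a, ha, p2⟩
        exact ⟨p1, a, ha, fun q => p2 ((hag a (ha.trans hb) b hb).2 q)⟩
      · rintro ⟨p1, a, ha, p2⟩
        exact ⟨p1, a, ha, fun q => p2 ((hag a (ha.trans hb) b hb).1 q)⟩
  have hnull : ∀ a < K.ord, ¬ Pos M.ord K.ord (E en c \ E2 en e' a) := by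
    intro a ha hp
    have hDS : DS (E2 en e' a) := by
      refine DO.sub (R := fun x w => w 0 ∈ E2 en x a) e' ?_
      refine DO.sub (R := fun y w => w 1 ∈ E2 en (w 0) y) a ?_
      exact DO.s3 (X := fun b a e => b ∈ E2 en e a) hE2 2 0 1
    have h5 := (hHH en M N K c d h (E2 en e' a) hDS).2 hp
    have h6 := pos_diff hVA hcof hZ' h5
    have h7 := pos_diff hVA hcof h6 (hVB N.ord K.ord (succ a) hlim (hlim.succ_lt ha))
    refine hVB N.ord K.ord 0 hlim (lt_of_le_of_lt bot_le ha) (h7.mono ?_)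
    rintro α _ ⟨⟨k1, k2⟩, k3⟩ _
    exfalso
    obtain ⟨m1, m2, -⟩ := key α k1
    have hle : a < α := by
      have : ¬ α < succ a := k3
      rw [not_lt] at this
      exact succ_le_iff.1 this
    exact k2 ⟨m1, m2 a hle⟩
  have hc := hHD en M.ord K c h.kreg hK0 h.ac
  have hX := hc.nrm e' hnull
  refine hVF M.ord N K h.nreg h.kreg h.nk _ hX (hZ'.mono fun α _ hα _ => ?_)
  exact (key α hα).2.2

end Pool.Agent.H78.HD.HJ
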