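import Pool.Agent.H7.HD.Targets7
import Pool.Agent.H3.HD.Iter

/-!
# MP_e37c09_lc: module CI
-/

open Ordinal Cardinal Order Set

universe u

namespace Pool.Agent.H78.HD.CI

open _root_.HD

theorem limit_of_cof {ρ : Ordinal.{u}} (hρ : ℵ₀ < ρ.cof) : IsSuccLimit ρ := by
  rw [← Ordinal.one_lt_cof_iff]
  exact Cardinal.one_lt_aleph0.trans hρ

/-- CI. -/
theorem ci : T_CI.{u} := by
  intro ρ C C' hρ hC hC'
  have hl := limit_of_cof hρ
  constructor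
  · intro a ha
    have hP : ∀ b < ρ, ∃ b' < ρ, b < b' ∧
        ((∃ z ∈ C, b < z ∧ z < b') ∧ ∃ z ∈ C', b < z ∧ z < b') := by
      intro b hb
      obtain ⟨z, hz, hbz, hzC⟩ := hC.unb b hb
      obtain ⟨z', hz', hbz', hzC'⟩ := hC'.unb b hb
      have h1 : max z z' < ρ := max_lt hz hz'
      refine ⟨succ (max z z'), hl.succ_lt h1, ?_, ⟨z, hzC, hbz, ?_⟩, ⟨z', hzC', hbz', ?_⟩⟩
      · exact (hbz.trans_le (le_max_left _ _)).trans (lt_succ _)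
      · exact (le_max_left _ _).trans_lt (lt_succ _)
      · exact (le_max_right _ _).trans_lt (lt_succ _)
    obtain ⟨x, hx, s, hs0, hsx, hsP, hsc⟩ := Pool.Agent.H3.HD.exists_iter hρ
      (fun b b' => (∃ z ∈ C, b < z ∧ z < b') ∧ ∃ z ∈ C', b < z ∧ z < b') hP a ha
    have hax : a < x := hs0 ▸ hsx 0
    have hx0 : 0 < x := lt_of_le_of_lt zero_le hax
    refine ⟨x, hx, hax, hC.cls x hx hx0 ?_, hC'.cls x hx hx0 ?_⟩
    · intro y hy
      obtain ⟨n, hn⟩ := hsc y hy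
      obtain ⟨⟨z, hz, h1, h2⟩, -⟩ := hsP n
      exact ⟨z, h2.trans (hsx (n + 1)), hn.trans h1, hz⟩
    · intro y hy
      obtain ⟨n, hn⟩ := hsc y hy
      obtain ⟨-, z, hz, h1, h2⟩ := hsP n
      exact ⟨z, h2.trans (hsx (n + 1)), hn.trans h1, hz⟩
  · intro x hx hx0 h
    refine ⟨hC.cls x hx hx0 fun y hy => ?_, hC'.cls x hx hx0 fun y hy => ?_⟩
    · obtain ⟨z, hz, h1, h2⟩ := h y hy
      exact ⟨z, hz, h1, h2.1⟩
    · obtain ⟨z, hz, h1, h2⟩ := h y hy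
      exact ⟨z, hz, h1, h2.2⟩

end Pool.Agent.H78.HD.CI
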