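import Pool.Agent.H78.HD.CI

/-!
# MP_e37c09_lc: module MI
-/

open Ordinal Cardinal Order Set

universe u

namespace Pool.Agent.H78.HD.MI

open _root_.HD Pool.Agent.H78.HD.CI

theorem club_lim {ρ : Ordinal.{u}} (hρ : ℵ₀ < ρ.cof) {X : Set Ordinal.{u}}
    (hX : ∀ y < ρ, ∃ z ∈ X, y < z ∧ z < ρ) :
    Clb ρ {x | ∀ y < x, ∃ z ∈ X, y < z ∧ z < x} := by
  have hl := limit_of_cof hρ
  constructor
  · intro a ha
    have hP : ∀ b < ρ, ∃ b' < ρ, b < b' ∧ ∃ z ∈ X, b < z ∧ z < b' := by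
      intro b hb
      obtain ⟨z, hz, hbz, hzρ⟩ := hX b hb
      exact ⟨succ z, hl.succ_lt hzρ, hbz.trans (lt_succ _), z, hz, hbz, lt_succ _⟩
    obtain ⟨x, hx, s, hs0, hsx, hsP, hsc⟩ := Pool.Agent.H3.HD.exists_iter hρ
      (fun b b' => ∃ z ∈ X, b < z ∧ z < b') hP a ha
    refine ⟨x, hx, hs0 ▸ hsx 0, ?_⟩
    intro y hy
    obtain ⟨n, hn⟩ := hsc y hy
    obtain ⟨z, hz, h1, h2⟩ := hsP n
    exact ⟨z, hz, hn.trans h1, h2.trans (hsx (n + 1))⟩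
  · intro x hx hx0 h y hy
    obtain ⟨z, hz, h1, h2⟩ := h y hy
    obtain ⟨w, hw, h3, h4⟩ := h2 y h1
    exact ⟨w, hw, h3, h4.trans hz⟩

theorem club_above {ρ : Ordinal.{u}} (hρ : ℵ₀ < ρ.cof) {y : Ordinal.{u}} (hy : y < ρ) :
    Clb ρ (Ioi y) := by
  have hl := limit_of_cof hρ
  constructor
  · intro a ha
    refine ⟨succ (max a y), hl.succ_lt (max_lt ha hy), (le_max_left _ _).trans_lt (lt_succ _), ?_⟩
    exact (le_max_right a y).trans_lt (lt_succ (max a y))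
  · intro x hx hx0 h
    obtain ⟨z, hz, -, h2⟩ := h 0 hx0
    exact lt_trans h2 hz

/-- MI. -/
theorem mi (hVC : T_VC.{u}) (hCI : T_CI.{u}) : T_MI.{u} := by
  intro μ ρ X X' hμ hμρ hc hc' hX hX'
  have hρ : ℵ₀ < ρ.cof := hμ.aleph0_le.trans_lt hμρ
  have h1 := club_lim hρ hX
  have h2 := club_lim hρ hX'
  refine ⟨?_, ?_⟩
  · intro hp
    obtain ⟨b, hb, hbC, hbX, hbμ⟩ := hp _ h1
    exact hbX (hc b hb (Cardinal.ord_injective hbμ) hbC)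
  · intro y hy
    obtain ⟨b, hb, ⟨⟨hbC, hbC'⟩, hyb⟩, -, hbμ⟩ := hVC μ ρ hμ hμρ _
      (hCI ρ _ _ hρ (hCI ρ _ _ hρ h1 h2) (club_above hρ hy))
    have e := Cardinal.ord_injective hbμ
    exact ⟨b, ⟨hc b hb e hbC, hc' b hb e hbC'⟩, hyb, hb⟩

end Pool.Agent.H78.HD.MI
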